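
import Pool.Agent.K4H83.BI.Pos

set_option autoImplicit false


namespace Pool.Agent.K4H83.Retired.S10497

/-- For every n, the type-B descent polynomial summed over involutions of the hyperoctahedral group B_n (with w(0)=0) equals the sum over i from 0 to n/2 of g_i x^i (1+x)^(n-2i), with every g_i a nonnegative integer. -/
theorem result : ∀ n : ℕ, ∃ γ : ℕ → ℕ,
    (∑ w ∈ (Finset.univ : Finset (Equiv.Perm (Fin n) × (Fin n → Bool))).filter
        (fun w => ∀ i : Fin n, w.1 (w.1 i) = i ∧ w.2 (w.1 i) = w.2 i),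
      (Polynomial.X : Polynomial ℤ) ^
        ((Finset.univ.filter (fun j : Fin n => j.val = 0 ∧ w.2 j = true)).card +
          (Finset.univ.filter (fun p : Fin n × Fin n => p.2.val = p.1.val + 1 ∧
            (if w.2 p.2 then (-1 : ℤ) else 1) * (((w.1 p.2 : ℕ) : ℤ) + 1) <
            (if w.2 p.1 then (-1 : ℤ) else 1) * (((w.1 p.1 : ℕ) : ℤ) + 1))).card))
    = ∑ i ∈ Finset.range (n / 2 + 1),
        Polynomial.C (γ i : ℤ) * Polynomial.X ^ i * (1 + Polynomial.X) ^ (n - 2 * i) := by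
  intro n
  obtain ⟨γ, hγ⟩ := Pool.Agent.K4H83.BI.final n
  refine ⟨γ, ?_⟩
  rw [← hγ]
  unfold Pool.Agent.K4H83.BI.II Pool.Agent.K4H83.BI.des Pool.Agent.K4H83.BI.val
    Pool.Agent.K4H83.BI.Inv
  refine Finset.sum_congr ?_ ?_
  · ext w
    simp only [Finset.mem_filter]
  · intro w _
    rfl

end Pool.Agent.K4H83.Retired.S10497
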